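import Pool.Agent.R557.EFMain

set_option autoImplicit false

namespace Pool.Agent.Results.MP_eef9c4_lc.ExistsForallFails

open Pool.Agent.R557.EF

/-- There is a profinite subgroup `G` of `S_∞` with computable tree `T_G` and computable branching
function, and a c.e. set with characteristic function `k`, such that for every Turing ideal `I` with
`k ∉ I` the subgroup `G_I` is not `Γ`-elementary in `G` for every class `Γ` of formulas that contains the
`∃∀` formulas with one existential and one universal quantifier (or all such `∀∃` formulas). There is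
a Scott ideal `I` with `k ∉ I`. In particular `G_I ≼_{∃∀} G` and `G_I ≼ G` fail for this Scott ideal. -/
theorem result :
    (∃ (I : Set (ℕ → ℕ)) (hS : ScottIdeal I) (G : Subgroup (Equiv.Perm ℕ)),
      IsProfinite G ∧ TreeIn I G ∧ ¬ ElemFor IsExAll (GI hS.1 G) G ∧
      ∀ Γ : Fml → Prop, ((∀ φ, IsExAllOne φ → Γ φ) ∨ (∀ φ, IsAllExOne φ → Γ φ)) →
        ¬ ElemFor Γ (GI hS.1 G) G) ∧
    ∃ (G : Subgroup (Equiv.Perm ℕ)) (A : Set ℕ), IsProfinite G ∧
      Computable (chr (TG G)) ∧ Computable (fun n => branch G (Denumerable.ofNat (List ℕ) n)) ∧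
      REPred (fun n => n ∈ A) ∧
      (∀ (I : Set (ℕ → ℕ)) (hI : TuringIdeal I), chr A ∉ I →
        ∀ Γ : Fml → Prop, ((∀ φ, IsExAllOne φ → Γ φ) ∨ (∀ φ, IsAllExOne φ → Γ φ)) →
          ¬ ElemFor Γ (GI hI G) G) ∧
      ∃ I, ScottIdeal I ∧ chr A ∉ I := by
  obtain ⟨I, hS, hI⟩ := exists_scott not_computable_HP
  have hc : chr {n : ℕ | KS n} = ch HP := by
    funext n
    unfold chr ch HP
    by_cases h : KS n <;> simp [h]
  refine ⟨⟨I, hS, GG, GG_profinite, ⟨mem_of_prim hS.1 p_chr, mem_of_prim hS.1 p_branch⟩,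
    main_neg hS.1 hI _ (Or.inl fun φ h => h.isExAll), fun Γ hΓ => main_neg hS.1 hI Γ hΓ⟩,
    GG, {n | KS n}, GG_profinite, (Primrec.nat_iff.2 p_chr).to_comp,
    (Primrec.nat_iff.2 p_branch).to_comp, ?_, ?_, I, hS, ?_⟩
  · have h1 : REPred fun n : ℕ => (Nat.Partrec.Code.eval
        (Denumerable.ofNat Nat.Partrec.Code n) 0).Dom := by
      have := Nat.Partrec.Code.eval_part.comp
        (Computable.ofNat Nat.Partrec.Code) (Computable.const 0)
      exact this.dom_re
    exact h1.of_eq fun n => (KS_iff n).symm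
  · intro J hJ hn Γ hΓ
    rw [hc] at hn
    exact main_neg hJ hn Γ hΓ
  · rw [hc]
    exact hI

end Pool.Agent.Results.MP_eef9c4_lc.ExistsForallFails
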